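import Pool.Agent.Y198.EX.Stm

/-! Job EX-C: dimension, nonzero `p⁻¹`-linear maps and splittings for the power series ring
(helper592). -/

set_option autoImplicit false

namespace Pool.Agent.Y592.EX2

open Pool.Agent.H42R3.FS PowerSeries
open Pool.Agent.Y198.EX (stmC)

theorem dim (R : Type) [CommRing R] [IsDomain R] [IsLocalRing R] [IsNoetherianRing R] :
    ringKrullDim (PowerSeries R) = ringKrullDim R + 1 := by
  have hX : (X : PowerSeries R) ∈ Ring.jacobson (PowerSeries R) := by
    rw [IsLocalRing.ringJacobson_eq_maximalIdeal, IsLocalRing.mem_maximalIdeal, mem_nonunits_iff]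
    intro h
    have h1 := h.map (constantCoeff (R := R))
    rw [constantCoeff_X] at h1
    exact not_isUnit_zero h1
  have hreg : IsSMulRegular (PowerSeries R) (X : PowerSeries R) := fun a b h =>
    X_mul_cancel (by simpa using h)
  have h1 := ringKrullDim_quotient_span_singleton_succ_eq_ringKrullDim_of_mem_jacobson hreg hX
  have hker : Ideal.span {(X : PowerSeries R)} = RingHom.ker (constantCoeff (R := R)) := by
    ext f
    rw [Ideal.mem_span_singleton, RingHom.mem_ker, X_dvd_iff]
  have hsurj : Function.Surjective (constantCoeff (R := R)) := fun r => ⟨C r, by simp⟩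
  have h2 : ringKrullDim (PowerSeries R ⧸ Ideal.span {(X : PowerSeries R)}) =
      ringKrullDim R := by
    rw [ringKrullDim_eq_of_ringEquiv (Ideal.quotEquivOfEq hker)]
    exact ringKrullDim_eq_of_ringEquiv (RingHom.quotientKerEquivOfSurjective hsurj)
  rw [← h1, h2]

section

variable {p : ℕ} [hp : Fact p.Prime] {R : Type} [CommRing R] [CharP R p]

theorem coeff_pow (f : PowerSeries R) (n : ℕ) :
    coeff n (f ^ p) = if p ∣ n then (coeff (n / p) f) ^ p else 0 := by
  have h1 : PowerSeries.map (frobenius R p) (PowerSeries.expand p hp.out.ne_zero f) = f ^ p :=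
    MvPowerSeries.map_frobenius_expand p hp.out.ne_zero
  rw [← h1, coeff_map, PowerSeries.coeff_expand]
  split_ifs with h
  · rfl
  · simp

theorem mk_pow_mul (ψ : R →+ R) (hψ : ∀ r x, ψ (r ^ p * x) = r * ψ x) (r f : PowerSeries R) :
    (PowerSeries.mk fun i => ψ (coeff (p * i) (r ^ p * f))) =
      r * PowerSeries.mk fun i => ψ (coeff (p * i) f) := by
  have hp0 : 0 < p := hp.out.pos
  ext i
  rw [coeff_mk, coeff_mul, coeff_mul, map_sum]
  symm
  apply Finset.sum_of_injOn (fun x : ℕ × ℕ => (p * x.1, p * x.2))
  · rintro ⟨a, b⟩ _ ⟨c, d⟩ _ hh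
    simp only [Prod.mk.injEq] at hh
    exact Prod.ext (Nat.eq_of_mul_eq_mul_left hp0 hh.1) (Nat.eq_of_mul_eq_mul_left hp0 hh.2)
  · rintro ⟨a, b⟩ hab
    simp only [Finset.mem_coe, Finset.HasAntidiagonal.mem_antidiagonal] at hab ⊢
    rw [← hab, mul_add]
  · rintro ⟨a, b⟩ hab hn
    simp only [Finset.HasAntidiagonal.mem_antidiagonal] at hab
    rw [coeff_pow]
    dsimp only
    split_ifs with hd
    · exfalso
      apply hn
      obtain ⟨a', rfl⟩ := hd
      have hb : p ∣ b := by
        have : p ∣ p * a' + b := ⟨i, hab⟩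
        exact (Nat.dvd_add_right ⟨a', rfl⟩).1 this
      obtain ⟨b', rfl⟩ := hb
      refine ⟨(a', b'), ?_, rfl⟩
      simp only [Finset.mem_coe, Finset.HasAntidiagonal.mem_antidiagonal]
      apply Nat.eq_of_mul_eq_mul_left hp0
      rw [mul_add, hab]
    · rw [zero_mul, map_zero]
  · rintro ⟨a, b⟩ _
    dsimp only
    rw [coeff_pow, if_pos ⟨a, rfl⟩, Nat.mul_div_cancel_left _ hp0, hψ, coeff_mk]

/-- the map as an additive map of `R` -/
def adm (φ : Fs p R →ₗ[R] R) : R →+ R where
  toFun x := φ (show Fs p R from x)
  map_zero' := φ.map_zero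
  map_add' x y := φ.map_add x y

theorem adm_pow (φ : Fs p R →ₗ[R] R) (r x : R) : adm φ (r ^ p * x) = r * adm φ x :=
  φ.map_smul r (show Fs p R from x)

end

theorem t : stmC := by
  refine ⟨?_, ?_⟩
  · intro R _ _ _ _ d hd
    rw [dim R, hd]
    push_cast
    rfl
  · intro p hp R _ _ _
    refine ⟨?_, ?_⟩
    · rintro ⟨φ, hφ⟩
      refine ⟨
        { toFun := fun f => PowerSeries.mk fun i => adm φ (coeff (p * i) (show PowerSeries R from f))
          map_add' := fun f g => ?_
          map_smul' := fun r f => ?_ }, ?_⟩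
      · ext i
        rw [map_add, coeff_mk, coeff_mk, coeff_mk, ← map_add]
        rfl
      · exact mk_pow_mul (adm φ) (adm_pow φ) r (show PowerSeries R from f)
      · intro h
        apply hφ
        ext r
        have h1 := LinearMap.congr_fun h (show Fs p (PowerSeries R) from C (R := R) r)
        have h2 := congrArg (coeff (R := R) 0) h1
        have h3 : (coeff (R := R) 0) (PowerSeries.mk fun i => adm φ (coeff (p * i)
          (C (R := R) r))) = 0 := h2
        rw [coeff_mk, mul_zero, coeff_zero_C] at h3
        exact h3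
    · rintro ⟨Φ, hΦ⟩
      let ψ : R → R := fun r => constantCoeff (Φ (show Fs p (PowerSeries R) from C (R := R) r))
      have hadd : ∀ r s, ψ (r + s) = ψ r + ψ s := by
        intro r s
        have h1 : (show Fs p (PowerSeries R) from C (R := R) (r + s)) =
            (show Fs p (PowerSeries R) from C (R := R) r) +
              (show Fs p (PowerSeries R) from C (R := R) s) := map_add (C (R := R)) r s
        show constantCoeff (Φ (show Fs p (PowerSeries R) from C (R := R) (r + s))) = _
        rw [h1, map_add, map_add]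
      have hmul : ∀ a r, ψ (a ^ p * r) = a * ψ r := by
        intro a r
        have h1 : (show Fs p (PowerSeries R) from C (R := R) (a ^ p * r)) =
            (C (R := R) a) • (show Fs p (PowerSeries R) from C (R := R) r) := by
          rw [Fs_smul_def]
          show C (R := R) (a ^ p * r) = (C (R := R) a) ^ p * C (R := R) r
          rw [map_mul, map_pow]
        show constantCoeff (Φ (show Fs p (PowerSeries R) from C (R := R) (a ^ p * r))) = _
        rw [h1, Φ.map_smul, smul_eq_mul, map_mul, constantCoeff_C]
      have hone : ψ 1 = 1 := by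
        show constantCoeff (Φ (show Fs p (PowerSeries R) from C (R := R) 1)) = 1
        have h1 : (show Fs p (PowerSeries R) from C (R := R) 1) = 1 := map_one (C (R := R))
        rw [h1, hΦ, map_one]
      exact ⟨{ toFun := ψ, map_add' := hadd, map_smul' := hmul }, hone⟩

end Pool.Agent.Y592.EX2
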